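import Pool.Agent.Helper8.TNG.Stmts

/-!
# Row CTR: one step of the process, classes of tokens

For a list of core tokens, the value of `Rb` after one insertion.
-/

namespace Pool.Agent.Helper8.TNG

theorem CTR_nil (S : Tok → Bool) : Rb S [] = false := by
  simp [Rb]

theorem CTR_cons_o (S : Tok → Bool) (τ : List Tok) : Rb S (Tok.o :: τ) = true := by
  simp [Rb]

theorem CTR_cons_S (S : Tok → Bool) (r : Tok) (τ : List Tok) (hr : r ≠ .o) (hS : S r = true) :
    Rb S (r :: τ) = false := by
  unfold Rb
  rw [List.find?_cons_of_pos (by simp [hS])]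
  simp [hr]

theorem CTR_cons_N (S : Tok → Bool) (r : Tok) (τ : List Tok) (hr : r ≠ .o) (hS : S r = false) :
    Rb S (r :: τ) = Rb S τ := by
  unfold Rb
  rw [List.find?_cons_of_neg (by simp [hS, hr])]

theorem CTR_cons (S : Tok → Bool) (r : Tok) (s t : List Tok) (h : Rb S s = Rb S t) :
    Rb S (r :: s) = Rb S (r :: t) := by
  by_cases hr : r = .o
  · subst hr
    rw [CTR_cons_o, CTR_cons_o]
  · by_cases hS : S r = true
    · rw [CTR_cons_S S r s hr hS, CTR_cons_S S r t hr hS]
    · have hS' : S r = false := by simpa using hS
      rw [CTR_cons_N S r s hr hS', CTR_cons_N S r t hr hS', h]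

/-- The first part: the letters `a`, `b`, `c`. -/
theorem CTR_one (S : Tok → Bool) (hS : S = KK ∨ S = BB) :
    ∀ (τ : List Tok), (∀ t ∈ τ, core t = true) →
    ∀ p : Tok, (p = .a ∨ p = .b ∨ p = .c) → Rb S (ins tlt τ p) = Rb S τ := by
  intro τ
  induction τ with
  | nil =>
    intro _ p hp
    have hpo : p ≠ .o := by rcases hp with rfl | rfl | rfl <;> decide
    rw [show ins tlt [] p = [p] from rfl]
    by_cases hSp : S p = true
    · rw [CTR_cons_S S p [] hpo hSp, CTR_nil]
    · rw [CTR_cons_N S p [] hpo (by simpa using hSp)]
  | cons r s ih =>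
    intro hc p hp
    have hr : core r = true := hc r (by simp)
    have hs : ∀ t ∈ s, core t = true := fun t ht => hc t (by simp [ht])
    by_cases hlt : tlt r p = true
    · have hra : r = .a ∧ p = .c := by
        rcases hp with rfl | rfl | rfl <;> cases r <;> revert hlt hr <;> decide
      obtain ⟨rfl, rfl⟩ := hra
      rw [show ins tlt (Tok.a :: s) .c = .c :: ins tlt s .a from rfl]
      rcases hS with rfl | rfl
      · rw [CTR_cons_S KK .c _ (by decide) (by decide), CTR_cons_S KK .a _ (by decide) (by decide)]
      · rw [CTR_cons_N BB .c _ (by decide) (by decide), CTR_cons_N BB .a _ (by decide) (by decide)]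
        exact ih hs .a (by simp)
    · have h1 : ins tlt (r :: s) p = r :: ins tlt s p := by
        simp only [ins]
        rw [if_neg hlt]
      rw [h1]
      exact CTR_cons S r _ _ (ih hs p hp)

/-- The second part: the letter `o`. -/
theorem CTR_two (S : Tok → Bool) (_hS : S = KK ∨ S = BB) :
    ∀ (τ : List Tok), (∀ t ∈ τ, core t = true) → Tok.o ∉ τ →
    Rb S (ins tlt τ .o) = !(τ.any S) := by
  intro τ
  induction τ with
  | nil =>
    intro _ _
    rw [show ins tlt [] Tok.o = [Tok.o] from rfl, CTR_cons_o]
    rfl
  | cons r s ih =>
    intro hc ho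
    have hr : core r = true := hc r (by simp)
    have hs : ∀ t ∈ s, core t = true := fun t ht => hc t (by simp [ht])
    have hro : r ≠ .o := by
      rintro rfl
      exact ho (by simp)
    have hos : Tok.o ∉ s := fun h => ho (by simp [h])
    have hlt : ¬ tlt r .o = true := by
      cases r <;> revert hr <;> decide
    have h1 : ins tlt (r :: s) .o = r :: ins tlt s .o := by
      simp only [ins]
      rw [if_neg hlt]
    rw [h1, List.any_cons]
    by_cases hSr : S r = true
    · rw [CTR_cons_S S r _ hro hSr, hSr]
      rfl
    · have hSr' : S r = false := by simpa using hSr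
      rw [CTR_cons_N S r _ hro hSr', hSr', ih hs hos]
      rfl

theorem CTR_count_cons_o (s : List Tok) (h : (Tok.o :: s).count .o ≤ 1) : Tok.o ∉ s := by
  rw [List.count_cons_self] at h
  exact List.count_eq_zero.mp (by omega)

theorem CTR_count_cons (r : Tok) (s : List Tok) (h : (r :: s).count .o ≤ 1) :
    s.count .o ≤ 1 :=
  le_trans (List.count_le_count_cons) h

/-- The third part: the letter `e`. -/
theorem CTR_three :
    ∀ (τ : List Tok), (∀ t ∈ τ, core t = true) → τ.count .o ≤ 1 →
    Rb KK (ins tlt τ .e) = if Rb BB τ = true then !(τ.any KK) else Rb KK τ := by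
  intro τ
  induction τ with
  | nil =>
    intro _ _
    decide
  | cons r s ih =>
    intro hc ho
    have hr : core r = true := hc r (by simp)
    have hs : ∀ t ∈ s, core t = true := fun t ht => hc t (by simp [ht])
    have ih' := ih hs (CTR_count_cons r s ho)
    cases r with
    | x => exact absurd hr (by decide)
    | y => exact absurd hr (by decide)
    | f => exact absurd hr (by decide)
    | g => exact absurd hr (by decide)
    | o =>
      rw [show ins tlt (Tok.o :: s) .e = .e :: ins tlt s .o from rfl,
        CTR_cons_N KK .e _ (by decide) (by decide),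
        CTR_two KK (Or.inl rfl) s hs (CTR_count_cons_o s ho), CTR_cons_o, if_pos rfl,
        List.any_cons]
      rfl
    | a =>
      rw [show ins tlt (Tok.a :: s) .e = .a :: ins tlt s .e from rfl,
        CTR_cons_S KK .a _ (by decide) (by decide), CTR_cons_S KK .a _ (by decide) (by decide),
        List.any_cons, show KK .a = true from rfl]
      simp
    | c =>
      rw [show ins tlt (Tok.c :: s) .e = .c :: ins tlt s .e from rfl,
        CTR_cons_S KK .c _ (by decide) (by decide), CTR_cons_S KK .c _ (by decide) (by decide),
        List.any_cons, show KK .c = true from rfl]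
      simp
    | b =>
      rw [show ins tlt (Tok.b :: s) .e = .e :: ins tlt s .b from rfl,
        CTR_cons_N KK .e _ (by decide) (by decide),
        CTR_one KK (Or.inl rfl) s hs .b (by simp),
        CTR_cons_S BB .b _ (by decide) (by decide),
        CTR_cons_N KK .b _ (by decide) (by decide)]
      simp
    | e =>
      rw [show ins tlt (Tok.e :: s) .e = .e :: ins tlt s .e from rfl,
        CTR_cons_N KK .e _ (by decide) (by decide), CTR_cons_N KK .e _ (by decide) (by decide),
        CTR_cons_N BB .e _ (by decide) (by decide), ih', List.any_cons]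
      rfl
    | z =>
      rw [show ins tlt (Tok.z :: s) .e = .z :: ins tlt s .e from rfl,
        CTR_cons_N KK .z _ (by decide) (by decide), CTR_cons_N KK .z _ (by decide) (by decide),
        CTR_cons_N BB .z _ (by decide) (by decide), ih', List.any_cons]
      rfl

/-- The fourth part: the letter `z`. -/
theorem CTR_four :
    ∀ (τ : List Tok), (∀ t ∈ τ, core t = true) → τ.count .o ≤ 1 →
    Rb BB (ins tlt τ .z) = if Rb KK τ = true then !(τ.any BB) else Rb BB τ := by
  intro τ
  induction τ with
  | nil =>
    intro _ _
    decide
  | cons r s ih =>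
    intro hc ho
    have hr : core r = true := hc r (by simp)
    have hs : ∀ t ∈ s, core t = true := fun t ht => hc t (by simp [ht])
    have ih' := ih hs (CTR_count_cons r s ho)
    cases r with
    | x => exact absurd hr (by decide)
    | y => exact absurd hr (by decide)
    | f => exact absurd hr (by decide)
    | g => exact absurd hr (by decide)
    | o =>
      rw [show ins tlt (Tok.o :: s) .z = .z :: ins tlt s .o from rfl,
        CTR_cons_N BB .z _ (by decide) (by decide),
        CTR_two BB (Or.inr rfl) s hs (CTR_count_cons_o s ho), CTR_cons_o, if_pos rfl,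
        List.any_cons]
      rfl
    | a =>
      rw [show ins tlt (Tok.a :: s) .z = .z :: ins tlt s .a from rfl,
        CTR_cons_N BB .z _ (by decide) (by decide),
        CTR_one BB (Or.inr rfl) s hs .a (by simp),
        CTR_cons_S KK .a _ (by decide) (by decide),
        CTR_cons_N BB .a _ (by decide) (by decide)]
      simp
    | c =>
      rw [show ins tlt (Tok.c :: s) .z = .z :: ins tlt s .c from rfl,
        CTR_cons_N BB .z _ (by decide) (by decide),
        CTR_one BB (Or.inr rfl) s hs .c (by simp),
        CTR_cons_S KK .c _ (by decide) (by decide),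
        CTR_cons_N BB .c _ (by decide) (by decide)]
      simp
    | b =>
      rw [show ins tlt (Tok.b :: s) .z = .b :: ins tlt s .z from rfl,
        CTR_cons_S BB .b _ (by decide) (by decide), CTR_cons_S BB .b _ (by decide) (by decide),
        List.any_cons, show BB .b = true from rfl]
      simp
    | e =>
      rw [show ins tlt (Tok.e :: s) .z = .e :: ins tlt s .z from rfl,
        CTR_cons_N BB .e _ (by decide) (by decide), CTR_cons_N BB .e _ (by decide) (by decide),
        CTR_cons_N KK .e _ (by decide) (by decide), ih', List.any_cons]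
      rfl
    | z =>
      rw [show ins tlt (Tok.z :: s) .z = .z :: ins tlt s .z from rfl,
        CTR_cons_N BB .z _ (by decide) (by decide), CTR_cons_N BB .z _ (by decide) (by decide),
        CTR_cons_N KK .z _ (by decide) (by decide), ih', List.any_cons]
      rfl

/-- Row CTR. -/
theorem st_CTR : ST_CTR := by
  intro τ hc
  refine ⟨?_, ?_, ?_, ?_⟩
  · intro p S hp hS
    exact CTR_one S hS τ hc p hp
  · intro S hS ho
    exact CTR_two S hS τ hc ho
  · intro ho
    exact CTR_three τ hc ho
  · intro ho
    exact CTR_four τ hc ho

end Pool.Agent.Helper8.TNG
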