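import Pool.Agent.Helper8.TNG.Stmts

/-!
# Row FV: the value of `Rb` at the end, computed from the classes of the letters
-/

namespace Pool.Agent.Helper8.TNG

/-- Without the letter `μ`, the first argument of `fin` does not matter. -/
theorem FV_first (α β : Tok → Bool) (μ : Tok) :
    ∀ (v : List Tok), μ ∉ v → ∀ (R1 R2 Rβ hα hβ : Bool),
      fin α β μ R1 Rβ hα hβ v = fin α β μ R2 Rβ hα hβ v := by
  intro v
  induction v with
  | nil =>
    intro _ R1 R2 Rβ hα hβ
    rfl
  | cons p v ih =>
    intro hμ R1 R2 Rβ hα hβ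
    have hμv : μ ∉ v := fun h => hμ (by simp [h])
    have hp : p ≠ μ := by
      rintro rfl
      exact hμ (by simp)
    by_cases ho : p = .o
    · simp only [fin]
      rw [if_pos ho, if_pos ho]
    · simp only [fin]
      rw [if_neg ho, if_neg ho, if_neg hp, if_neg hp]
      exact ih hμv _ _ _ _ _

theorem FV_any_perm (S : Tok → Bool) (s t : List Tok) (h : s.Perm t) : s.any S = t.any S := by
  rw [Bool.eq_iff_iff, List.any_eq_true, List.any_eq_true]
  constructor
  · rintro ⟨m, hm, hS⟩
    exact ⟨m, h.mem_iff.mp hm, hS⟩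
  · rintro ⟨m, hm, hS⟩
    exact ⟨m, h.mem_iff.mpr hm, hS⟩

/-- Row FV. -/
theorem st_FV (h1 : ST_INS) (h2 : ST_CTR) : ST_FV := by
  intro α β μ hαβ τ v
  have hperm : ∀ (s : List Tok) (p : Tok), (ins tlt s p).Perm (p :: s) := (h1 Tok tlt).2.1
  have hα : α = KK ∨ α = BB := by
    rcases hαβ with ⟨h, _, _⟩ | ⟨h, _, _⟩
    · exact Or.inr h
    · exact Or.inl h
  have hβ : β = KK ∨ β = BB := by
    rcases hαβ with ⟨_, h, _⟩ | ⟨_, h, _⟩
    · exact Or.inl h
    · exact Or.inr h
  have hαo : α .o = false := by rcases hα with rfl | rfl <;> rfl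
  have hβo : β .o = false := by rcases hβ with rfl | rfl <;> rfl
  have hαμ : α μ = false := by
    rcases hαβ with ⟨rfl, _, rfl⟩ | ⟨rfl, _, rfl⟩ <;> rfl
  have hβμ : β μ = false := by
    rcases hαβ with ⟨_, rfl, rfl⟩ | ⟨_, rfl, rfl⟩ <;> rfl
  have hμo : μ ≠ .o := by
    rcases hαβ with ⟨_, _, rfl⟩ | ⟨_, _, rfl⟩ <;> decide
  have hμc : core μ = true := by
    rcases hαβ with ⟨_, _, rfl⟩ | ⟨_, _, rfl⟩ <;> rfl
  have hstep : ∀ τ : List Tok, (∀ t ∈ τ, core t = true) → τ.count .o ≤ 1 →
      Rb β (ins tlt τ μ) = if Rb α τ = true then !(τ.any β) else Rb β τ := by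
    intro τ hτ ho
    obtain ⟨_, _, h3, h4⟩ := h2 τ hτ
    rcases hαβ with ⟨rfl, rfl, rfl⟩ | ⟨rfl, rfl, rfl⟩
    · exact h3 ho
    · exact h4 ho
  induction v generalizing τ with
  | nil =>
    intro _ _ _ _
    rfl
  | cons p v ih =>
    intro hτ hv hμv hov
    have hrun : run tlt τ (p :: v) = run tlt (ins tlt τ p) v := rfl
    have hpl : p = .o ∨ p = .a ∨ p = .b ∨ p = .c ∨ p = μ := hv p (by simp)
    have hpc : core p = true := by
      rcases hpl with rfl | rfl | rfl | rfl | rfl
      · rfl
      · rfl
      · rfl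
      · rfl
      · exact hμc
    have hτ' : ∀ t ∈ ins tlt τ p, core t = true := by
      intro t ht
      have h := (hperm τ p).mem_iff.mp ht
      rcases List.mem_cons.mp h with rfl | h
      · exact hpc
      · exact hτ t h
    have hv' : ∀ t ∈ v, t = .o ∨ t = .a ∨ t = .b ∨ t = .c ∨ t = μ :=
      fun t ht => hv t (by simp [ht])
    have hμv' : v.count μ ≤ 1 := le_trans List.count_le_count_cons hμv
    have hcnt : (ins tlt τ p ++ v).count .o = (τ ++ p :: v).count .o := by
      rw [List.count_append, List.count_append, (hperm τ p).count_eq, List.count_cons,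
        List.count_cons]
      omega
    have hov' : (ins tlt τ p ++ v).count .o ≤ 1 := by
      rw [hcnt]
      exact hov
    have hoτ : τ.count .o ≤ 1 := by
      rw [List.count_append] at hov
      omega
    have hIH := ih (ins tlt τ p) hτ' hv' hμv' hov'
    have hanyα : (ins tlt τ p).any α = (τ.any α || α p) := by
      rw [FV_any_perm α _ _ (hperm τ p), List.any_cons, Bool.or_comm]
    have hanyβ : (ins tlt τ p).any β = (τ.any β || β p) := by
      rw [FV_any_perm β _ _ (hperm τ p), List.any_cons, Bool.or_comm]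
    obtain ⟨h21, h22, _, _⟩ := h2 τ hτ
    rw [hrun, hIH, hanyα, hanyβ]
    by_cases hpo : p = .o
    · subst hpo
      have hoτ' : Tok.o ∉ τ := by
        rw [List.count_append, List.count_cons_self] at hov
        exact List.count_eq_zero.mp (by omega)
      rw [h22 α hα hoτ', h22 β hβ hoτ', hαo, hβo, Bool.or_false, Bool.or_false]
      simp only [fin]
      rw [if_pos trivial]
    · by_cases hpμ : p = μ
      · subst hpμ
        have hμv'' : p ∉ v := by
          rw [List.count_cons_self] at hμv
          exact List.count_eq_zero.mp (by omega)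
        rw [hstep τ hτ hoτ, hαμ, hβμ, Bool.or_false, Bool.or_false]
        simp only [fin]
        rw [if_neg hpo, if_pos trivial]
        by_cases hR : Rb α τ = true
        · rw [if_pos hR, if_pos hR]
          exact FV_first α β p v hμv'' _ _ _ _ _
        · rw [if_neg hR, if_neg hR]
          exact FV_first α β p v hμv'' _ _ _ _ _
      · have hpabc : p = .a ∨ p = .b ∨ p = .c := by
          rcases hpl with h | h | h | h | h
          · exact absurd h hpo
          · exact Or.inl h
          · exact Or.inr (Or.inl h)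
          · exact Or.inr (Or.inr h)
          · exact absurd h hpμ
        rw [h21 p α hpabc hα, h21 p β hpabc hβ]
        simp only [fin]
        rw [if_neg hpo, if_neg hpμ]

end Pool.Agent.Helper8.TNG
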